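import Pool.Agent.Q27.VS.Stm

/-! Project VS (helper27), job ALT: the groups `Alt G U` are conjugate, `Alt G univ = G`. -/

set_option autoImplicit false

open Set Topology Filter

namespace Pool.Agent.Q299.VS

open Pool.Agent.Q27.VS

theorem alt_conj {X : Type} [TopologicalSpace X] (G : Subgroup (X ≃ₜ X)) (U : Set X) :
    ∀ g ∈ G, ∀ t ∈ Alt G U, g * t * g⁻¹ ∈ Alt G (g '' U) := by
  intro g hg t ht
  unfold Alt at ht
  induction ht using Subgroup.closure_induction with
  | mem t ht =>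
    obtain ⟨h1, h2, A, hA, h3⟩ := ht
    exact Subgroup.subset_closure ⟨G.mul_mem (G.mul_mem hg h1) (G.inv_mem hg), h2.conj g, g '' A,
      image_clopen g hA, h3.conj g⟩
  | one =>
    rw [mul_one, mul_inv_cancel]
    exact one_mem _
  | mul a b _ _ ha hb =>
    have : g * (a * b) * g⁻¹ = (g * a * g⁻¹) * (g * b * g⁻¹) := by group
    rw [this]
    exact mul_mem ha hb
  | inv a _ ha =>
    have : g * a⁻¹ * g⁻¹ = (g * a * g⁻¹)⁻¹ := by group
    rw [this]
    exact inv_mem ha

theorem alt (X : Type) [TopologicalSpace X] [CSp X] (h0 : S_cycle X) : S_alt X := by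
  refine ⟨alt_conj, fun G hV hS => ?_⟩
  have hle : Alt G univ ≤ G := (Subgroup.closure_le G).2 fun g hg => hg.1
  have hnorm : ∀ g ∈ G, ∀ n ∈ Alt G univ, g * n * g⁻¹ ∈ Alt G univ := by
    intro g hg n hn
    have := alt_conj G univ g hg n hn
    rwa [image_univ_of_surjective g.surjective] at this
  rcases hS _ hle hnorm with h | h
  · exfalso
    have hne := CSp.ne (X := X)
    obtain ⟨P, h1, h2, -, h4, -⟩ := pieces 3 (isOpen_univ : IsOpen (univ : Set X)) univ_nonempty
    have hd : ∀ i j, i ≠ j → ∀ x, x ∈ P i → x ∉ P j := fun i j hij x hx =>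
      Set.disjoint_left.1 (h4 i j hij) hx
    have hu : ∀ i, P i ≠ univ := by
      intro i he
      obtain ⟨j, hj⟩ : ∃ j, j ≠ i := exists_ne i
      obtain ⟨x, hx⟩ := h2 j
      exact hd j i hj x hx (he ▸ mem_univ x)
    obtain ⟨g₁, hg₁, hP₁, -⟩ := hV univ (P 0) (P 1) isClopen_univ (h1 0) (h1 1)
      (subset_univ _) (subset_univ _) (h2 0) (h2 1) (hu 0) (hu 1)
    obtain ⟨g₂, hg₂, hP₂, -⟩ := hV univ (P 0) (P 2) isClopen_univ (h1 0) (h1 2)
      (subset_univ _) (subset_univ _) (h2 0) (h2 2) (hu 0) (hu 2)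
    let e : ℕ → (X ≃ₜ X) := fun s => if s = 0 then 1 else if s = 1 then g₁ else g₂
    have e0 : e 0 = 1 := rfl
    have e1 : e 1 = g₁ := rfl
    have e2 : e 2 = g₂ := rfl
    have hes : ∀ s : Fin 3, e s '' P 0 ⊆ P s := by
      intro s
      fin_cases s
      · rintro _ ⟨x, hx, rfl⟩; exact hx
      · exact hP₁
      · exact hP₂
    obtain ⟨c, hcG, hc3, hcs, hcf⟩ := h0 G hV hS 3 e (P 0) (by decide) (h1 0)
      (fun s => by
        change (if s = 0 then 1 else if s = 1 then g₁ else g₂) ∈ G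
        split_ifs
        · exact G.one_mem
        · exact hg₁
        · exact hg₂)
      (fun s hs t ht hst => by
        rw [Set.disjoint_left]
        intro x hx hx'
        exact hd ⟨s, hs⟩ ⟨t, ht⟩ (fun h => hst (by simpa using h)) x (hes ⟨s, hs⟩ hx)
          (hes ⟨t, ht⟩ hx')) e0
    have c1 : ∀ b ∈ P 0, c b = g₁ b := fun b hb => hcs 1 (by norm_num) b hb
    have c2 : ∀ b ∈ P 0, c (c b) = g₂ b := fun b hb => hcs 2 (by norm_num) b hb
    have c3 : ∀ b, c (c (c b)) = b := fun b => by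
      have : (c ^ 3) b = c (c (c b)) := rfl
      rw [← this, hc3]
      rfl
    have hc : IsTri c (P 0) := by
      refine ⟨fun x hx => ?_, fun x hx => ?_, fun x _ => c3 x, fun x hx ha hb => ?_⟩
      · rw [c1 x hx]
        exact hd 1 0 (by decide) _ (hP₁ ⟨x, hx, rfl⟩)
      · rw [c2 x hx]
        exact hd 2 0 (by decide) _ (hP₂ ⟨x, hx, rfl⟩)
      · refine hcf x fun s hs => ?_
        interval_cases s
        · rintro ⟨a, ha', rfl⟩; exact hx ha'
        · rintro ⟨a, ha', h⟩
          exact ha a ha' (by rw [c1 a ha']; exact h.symm)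
        · rintro ⟨a, ha', h⟩
          exact hb a ha' (by rw [c2 a ha']; exact h.symm)
    have hcA : c ∈ Alt G univ := Subgroup.subset_closure ⟨hcG, Sup.univ c, P 0, h1 0, hc⟩
    rw [h, Subgroup.mem_bot] at hcA
    obtain ⟨x, hx⟩ := h2 0
    have := hc.d1 x hx
    rw [hcA] at this
    exact this hx
  · exact h

end Pool.Agent.Q299.VS
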