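import Pool.Agent.Q27.VS.Stm

/-! Project VS (helper27), job COMM: the commutator of two homeomorphisms as a three-cycle. -/

set_option autoImplicit false

open Set Topology Filter

namespace Pool.Agent.Q299.VS

open Pool.Agent.Q27.VS

theorem comm (X : Type) [TopologicalSpace X] : S_comm X := by
  intro y y' A hA h1 h2
  have e : ∀ x, (y * y' * y⁻¹ * y'⁻¹) x = y (y' (y⁻¹ (y'⁻¹ x))) := fun x => rfl
  have iy : ∀ x, y (y⁻¹ x) = x := fun x => y.apply_symm_apply x
  have iy' : ∀ x, y' (y'⁻¹ x) = x := fun x => y'.apply_symm_apply x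
  have jy : ∀ x, y⁻¹ (y x) = x := fun x => y.symm_apply_apply x
  have jy' : ∀ x, y'⁻¹ (y' x) = x := fun x => y'.symm_apply_apply x
  -- the inverse fixes the fixed points
  have fy : ∀ x, y x = x → y⁻¹ x = x := fun x hx => by
    have := jy x
    rwa [hx] at this
  have fy' : ∀ x, y' x = x → y'⁻¹ x = x := fun x hx => by
    have := jy' x
    rwa [hx] at this
  -- the points of `A` are moved
  have my : ∀ x ∈ A, y x ≠ x := fun x hx h => h1 x hx (h.symm ▸ hx)
  have my' : ∀ x ∈ A, y' x ≠ x := fun x hx h => h2 x hx (h.symm ▸ hx)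
  -- a moved point outside `A` is fixed by the other map
  have k1 : ∀ x, x ∉ A → y x ≠ x → y' x = x := fun x hx h => by
    by_contra h'
    exact hx (hA x h h')
  have k2 : ∀ x, x ∉ A → y' x ≠ x → y x = x := fun x hx h => by
    by_contra h'
    exact hx (hA x h' h)
  refine ⟨fun x hx => ?_, fun x hx => ?_, fun x hx => ?_, fun x hx ha hb => ?_⟩
  · rw [e]
    have hu : y'⁻¹ x ∉ A := fun h => h2 _ h (by rw [iy']; exact hx)
    have hm : y' (y'⁻¹ x) ≠ y'⁻¹ x := by
      intro h
      rw [iy'] at h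
      exact hu (h ▸ hx)
    rw [fy _ (k2 _ hu hm), iy']
  · rw [e]
    have hu : y x ∉ A := h1 x hx
    have hm : y (y x) ≠ y x := fun h => my x hx (y.injective h)
    rw [fy' _ (k1 _ hu hm), jy]
    have hu' : y' x ∉ A := h2 x hx
    have hm' : y' (y' x) ≠ y' x := fun h => my' x hx (y'.injective h)
    exact k2 _ hu' hm'
  · rw [e, jy']
    have hu : y⁻¹ x ∉ A := fun h => h1 _ h (by rw [iy]; exact hx)
    have hm : y (y⁻¹ x) ≠ y⁻¹ x := by
      intro h
      rw [iy] at h
      exact hu (h ▸ hx)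
    rw [k1 _ hu hm, iy]
  · rw [e]
    by_cases hx' : y' x = x
    · rw [fy' _ hx']
      have hv : y⁻¹ x ∉ A := fun h => ha _ h (iy x).symm
      by_cases hvx : y (y⁻¹ x) = y⁻¹ x
      · have h3 : y⁻¹ x = x := by
          rw [iy] at hvx
          exact hvx.symm
        have h4 : y x = x := by
          have h5 := iy x
          rwa [h3] at h5
        rw [h3, hx', h4]
      · rw [k1 _ hv hvx, iy]
    · have hyx : y x = x := k2 _ hx hx'
      have hu : y'⁻¹ x ∉ A := fun h => hb _ h (iy' x).symm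
      have hm : y' (y'⁻¹ x) ≠ y'⁻¹ x := by
        intro h
        rw [iy'] at h
        exact hx' ((congrArg y' h).trans (iy' x))
      rw [fy _ (k2 _ hu hm), iy', hyx]

end Pool.Agent.Q299.VS
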