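import Pool.Agent.Q27.VS.Stm

/-! Project VS (helper27), job COPRIME: commuting elements of pairwise coprime orders are powers of
one element. -/

set_option autoImplicit false

namespace Pool.Agent.Q299.VS

open Pool.Agent.Q27.VS

theorem coprime_aux {H : Type} [Group H] {ι : Type} (c : ι → H) (ℓ : ι → ℕ) (s : Finset ι) :
    (∀ i ∈ s, ∀ j ∈ s, Commute (c i) (c j)) → (∀ i ∈ s, c i ^ ℓ i = 1) →
    (∀ i ∈ s, ∀ j ∈ s, i ≠ j → Nat.Coprime (ℓ i) (ℓ j)) →
    ∃ σ ∈ Subgroup.closure (c '' s), σ ^ (∏ i ∈ s, ℓ i) = 1 ∧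
      ∀ i ∈ s, c i ∈ Subgroup.zpowers σ := by
  classical
  induction s using Finset.induction_on with
  | empty =>
    intro _ _ _
    exact ⟨1, one_mem _, one_pow _, fun i hi => absurd hi (Finset.notMem_empty i)⟩
  | insert j s hj ih =>
    intro h1 h2 h3
    obtain ⟨σ, hσ, hσ1, hσ2⟩ := ih
      (fun a ha b hb => h1 a (Finset.mem_insert_of_mem ha) b (Finset.mem_insert_of_mem hb))
      (fun a ha => h2 a (Finset.mem_insert_of_mem ha))
      (fun a ha b hb => h3 a (Finset.mem_insert_of_mem ha) b (Finset.mem_insert_of_mem hb))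
    have hjm := Finset.mem_insert_self j s
    have hcomm : Commute σ (c j) := by
      have h4 : Subgroup.closure (c '' s) ≤ Subgroup.centralizer {c j} := by
        rw [Subgroup.closure_le]
        rintro _ ⟨i, hi, rfl⟩
        rw [SetLike.mem_coe, Subgroup.mem_centralizer_singleton_iff]
        exact (h1 i (Finset.mem_insert_of_mem hi) j hjm).eq
      exact Subgroup.mem_centralizer_singleton_iff.1 (h4 hσ)
    have hc : Nat.Coprime (∏ i ∈ s, ℓ i) (ℓ j) := by
      rw [Nat.coprime_prod_left_iff]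
      intro i hi
      exact h3 i (Finset.mem_insert_of_mem hi) j hjm fun h => hj (h ▸ hi)
    obtain ⟨u, hu1, hu2⟩ := Nat.chineseRemainder hc 1 0
    have hpow : (σ * c j) ^ u = σ := by
      rw [hcomm.mul_pow, pow_eq_pow_of_modEq hu1 hσ1, pow_eq_pow_of_modEq hu2 (h2 j hjm), pow_one,
        pow_zero, mul_one]
    have hσz : σ ∈ Subgroup.zpowers (σ * c j) := by
      have := Subgroup.npow_mem_zpowers (σ * c j) u
      rwa [hpow] at this
    refine ⟨σ * c j, ?_, ?_, ?_⟩
    · refine mul_mem (Subgroup.closure_mono (Set.image_mono ?_) hσ)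
        (Subgroup.subset_closure ⟨j, ?_, rfl⟩)
      · exact Finset.coe_subset.2 (Finset.subset_insert j s)
      · exact Finset.mem_coe.2 hjm
    · rw [Finset.prod_insert hj, hcomm.mul_pow, mul_comm (ℓ j), pow_mul, hσ1, one_pow, one_mul,
        mul_comm, pow_mul, h2 j hjm, one_pow]
    · intro i hi
      rcases Finset.mem_insert.1 hi with rfl | hi
      · have h5 : c i = σ⁻¹ * (σ * c i) := by group
        have h6 : σ⁻¹ * (σ * c i) ∈ Subgroup.zpowers (σ * c i) :=
          mul_mem (inv_mem hσz) (Subgroup.mem_zpowers _)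
        rwa [← h5] at h6
      · exact (Subgroup.zpowers_le.2 hσz) (hσ2 i hi)

theorem coprime : S_coprime := by
  intro H _ ι s c ℓ h1 h2 h3
  obtain ⟨σ, hσ, -, h⟩ := coprime_aux c ℓ s h1 h2 h3
  exact ⟨σ, hσ, h⟩

end Pool.Agent.Q299.VS
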