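import Pool.Agent.Q27.VS.Stm

/-! Project VS (helper27), job CYCLE: cycles of odd length are in `G`. -/

set_option autoImplicit false

open Set Topology Filter

namespace Pool.Agent.Q299.VS

open Pool.Agent.Q27.VS

theorem cycle_rot (m s : ℕ) (i : Fin (m + 1)) :
    ((((finRotate (m + 1)) ^ s) i : Fin (m + 1)) : ℕ) = (i + s) % (m + 1) := by
  induction s with
  | zero => simp [Nat.mod_eq_of_lt i.2]
  | succ s ih =>
    rw [pow_succ', Equiv.Perm.mul_apply, finRotate_apply, Fin.val_add, ih, Fin.val_one',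
      ← Nat.add_mod, add_assoc]

theorem cycle (X : Type) [TopologicalSpace X] (h0 : S_tower X) : S_cycle X := by
  intro G hV hS n e B hn hB he hd he0
  obtain ⟨k, rfl⟩ := hn
  obtain ⟨Ψ, h1, h2, h3⟩ := h0 G hV hS (2 * k + 1) (fun s => e s) B hB (fun s => he s)
    (fun s t hst => hd s s.2 t t.2 (fun h => hst (Fin.ext h)))
  have hpow : ∀ s, Ψ (finRotate (2 * k + 1)) ^ s = Ψ (finRotate (2 * k + 1) ^ s) := fun s =>
    (map_pow Ψ _ s).symm
  have hone : finRotate (2 * k + 1) ^ (2 * k + 1) = 1 := by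
    ext i
    rw [cycle_rot, Nat.add_mod_right, Nat.mod_eq_of_lt i.2]
    rfl
  refine ⟨Ψ (finRotate (2 * k + 1)), h3 _ ?_, ?_, fun s hs b hb => ?_, fun x hx => ?_⟩
  · rw [sign_finRotate]
    simp
  · rw [hpow, hone, map_one]
  · have h4 := h1 (finRotate (2 * k + 1) ^ s) 0 b hb
    rw [hpow]
    simp only [Fin.val_zero, he0, cycle_rot, zero_add, Nat.mod_eq_of_lt hs] at h4
    exact h4
  · exact h2 _ x fun s => hx s s.2

end Pool.Agent.Q299.VS
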