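import Pool.Agent.Q27.VS.Stm

/-! Project VS (helper27), job GEN: `G` is generated by its elements supported in proper clopen
sets. -/

set_option autoImplicit false

open Set Topology Filter

namespace Pool.Agent.Q299.VS

open Pool.Agent.Q27.VS

theorem gen (X : Type) [TopologicalSpace X] [CSp X] : S_gen X := by
  intro G hV hS
  set N := Subgroup.closure {g | g ∈ G ∧ ∃ A, IsClopen A ∧ A ≠ univ ∧ Sup g A} with hN
  have hle : N ≤ G := (Subgroup.closure_le G).2 fun g hg => hg.1
  have hnorm : ∀ g ∈ G, ∀ n ∈ N, g * n * g⁻¹ ∈ N := by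
    intro g hg n hn
    induction hn using Subgroup.closure_induction with
    | mem n hn =>
      obtain ⟨h1, A, hA, hne, hs⟩ := hn
      exact Subgroup.subset_closure ⟨G.mul_mem (G.mul_mem hg h1) (G.inv_mem hg), g '' A,
        image_clopen g hA, image_ne_univ g hne, hs.conj g⟩
    | one =>
      rw [mul_one, mul_inv_cancel]
      exact N.one_mem
    | mul a b _ _ ha hb =>
      have : g * (a * b) * g⁻¹ = (g * a * g⁻¹) * (g * b * g⁻¹) := by group
      rw [this]
      exact N.mul_mem ha hb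
    | inv a _ ha =>
      have : g * a⁻¹ * g⁻¹ = (g * a * g⁻¹)⁻¹ := by group
      rw [this]
      exact N.inv_mem ha
  rcases hS N hle hnorm with h | h
  · exfalso
    have hne := CSp.ne (X := X)
    obtain ⟨P, h1, h2, -, h4, h5⟩ := pieces 2 (isOpen_univ : IsOpen (univ : Set X)) univ_nonempty
    have hd : Disjoint (P 0) (P 1) := h4 0 1 (by decide)
    obtain ⟨g, hg, hgP, hgs⟩ := hV (P 0 ∪ P 1) (P 0) (P 1) ((h1 0).union (h1 1)) (h1 0) (h1 1)
      subset_union_left subset_union_right (h2 0) (h2 1)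
      (fun he => by
        obtain ⟨x, hx⟩ := h2 1
        have : x ∈ P 0 := he ▸ Or.inr hx
        exact Set.disjoint_left.1 hd this hx)
      (fun he => by
        obtain ⟨x, hx⟩ := h2 0
        have : x ∈ P 1 := he ▸ Or.inl hx
        exact Set.disjoint_left.1 hd hx this)
    have hu : P 0 ∪ P 1 ≠ univ := by
      intro he
      obtain ⟨x, -, hx⟩ := h5
      have hx' : x ∈ P 0 ∪ P 1 := he ▸ mem_univ x
      rcases hx' with hx' | hx'
      · exact hx (mem_iUnion.2 ⟨0, hx'⟩)
      · exact hx (mem_iUnion.2 ⟨1, hx'⟩)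
    have hgN : g ∈ N := Subgroup.subset_closure ⟨hg, _, (h1 0).union (h1 1), hu, hgs⟩
    rw [h, Subgroup.mem_bot] at hgN
    obtain ⟨x, hx⟩ := h2 0
    have h6 : g x ∈ P 1 := hgP ⟨x, hx, rfl⟩
    rw [hgN] at h6
    exact Set.disjoint_left.1 hd hx h6
  · exact h.symm

end Pool.Agent.Q299.VS
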