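import Pool.Agent.Q27.VS.Stm

/-! Project VS (helper27), job LEN: the lengths of the cycles. -/

set_option autoImplicit false

namespace Pool.Agent.Q299.VS

open Pool.Agent.Q27.VS

theorem len : S_len := by
  intro r L
  have hinf := Nat.infinite_setOfPred_prime
  let p : ℕ → ℕ := fun i => Nat.nth Nat.Prime (L + 3 + i)
  have hp : ∀ i, (p i).Prime := fun i => Nat.nth_mem_of_infinite hinf _
  have hge : ∀ i, L + 3 + i ≤ p i := fun i => (Nat.nth_strictMono hinf).id_le _
  have hodd : ∀ i, Odd (p i) := fun i => (hp i).odd_of_ne_two (by have := hge i; omega)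
  have hcop : ∀ i j, i ≠ j → Nat.Coprime (p i) (p j) := fun i j hij =>
    (Nat.coprime_primes (hp i) (hp j)).2 fun h => hij (by
      have := Nat.nth_injective hinf h
      omega)
  have hn : 1 ≤ 2 * ∏ i : Fin r, p i := by
    have : 0 < ∏ i : Fin r, p i := Finset.prod_pos fun i _ => (hp i).pos
    omega
  refine ⟨fun i => p i, p r, 2 * ∏ i : Fin r, p i, fun i => show L ≤ p i by have := hge i; omega,
    fun i => hodd i, by have := hge r; omega, hodd r, ?_, ?_,
    fun i j hij => hcop i j fun h => hij (Fin.ext h), fun i => hcop i r i.2.ne,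
    fun i => ?_, ?_⟩
  · have h1 := Nat.le_mul_of_pos_right (p r) hn
    have h2 := hge r
    omega
  · have h1 : Even (p r * (2 * ∏ i : Fin r, p i)) := by
      rw [Nat.even_mul]
      right
      exact even_two_mul _
    exact h1.add_one
  · obtain ⟨k, hk⟩ : p i ∣ p r * (2 * ∏ i : Fin r, p i) :=
      ((Finset.dvd_prod_of_mem (fun i : Fin r => p i) (Finset.mem_univ i)).mul_left 2).mul_left _
    change Nat.Coprime (p i) _
    rw [hk, Nat.coprime_mul_left_add_right]
    exact Nat.coprime_one_right _
  · rw [Nat.coprime_mul_left_add_right]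
    exact Nat.coprime_one_right _

end Pool.Agent.Q299.VS
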